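import Mathlib

set_option autoImplicit false

/-!
# Block [499dc6 FS]: formula size of the permanent.  Definitions
-/

open MvPolynomial

namespace Pool.Agent.Work.MP_499dc6_lc.FS

/-! ### formulas (definitions of the theorem) -/

/-- Arithmetic formulas over the field `F` in the variables `σ`: binary trees whose leaves are
labelled by variables or constants and whose inner nodes are gates `+`, `×`, `÷`. -/
inductive Formula (F σ : Type) : Type
  | var : σ → Formula F σ
  | const : F → Formula F σ
  | add : Formula F σ → Formula F σ → Formula F σ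
  | mul : Formula F σ → Formula F σ → Formula F σ
  | div : Formula F σ → Formula F σ → Formula F σ

namespace Formula

/-- the number of leaves labelled by variables -/
def leaves {F σ : Type} : Formula F σ → ℕ
  | var _ => 1
  | const _ => 0
  | add a b => a.leaves + b.leaves
  | mul a b => a.leaves + b.leaves
  | div a b => a.leaves + b.leaves

open Classical in
/-- the number of leaves labelled by variables of the set `T` -/
noncomputable def leavesIn {F σ : Type} (T : Set σ) : Formula F σ → ℕ
  | var v => if v ∈ T then 1 else 0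
  | const _ => 0
  | add a b => a.leavesIn T + b.leavesIn T
  | mul a b => a.leavesIn T + b.leavesIn T
  | div a b => a.leavesIn T + b.leavesIn T

/-- the value of the formula in the field `E`, for the values `c a` of the constants `a` and `x v` of
the variables `v` -/
noncomputable def ev {F σ E : Type} [Field E] (c : F → E) (x : σ → E) : Formula F σ → E
  | var v => x v
  | const a => c a
  | add a b => a.ev c x + b.ev c x
  | mul a b => a.ev c x * b.ev c x
  | div a b => a.ev c x / b.ev c x

/-- renaming of the variables -/
def ren {F σ τ : Type} (e : σ → τ) : Formula F σ → Formula F τ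
  | var v => var (e v)
  | const a => const a
  | add a b => add (a.ren e) (b.ren e)
  | mul a b => mul (a.ren e) (b.ren e)
  | div a b => div (a.ren e) (b.ren e)

end Formula

/-- The formula computes the polynomial `f`: its value in the field of rational functions is `f`. -/
def Computes {F σ : Type} [Field F] (Φ : Formula F σ) (f : MvPolynomial σ F) : Prop :=
  Φ.ev (fun a => algebraMap (MvPolynomial σ F) (FractionRing (MvPolynomial σ F)) (C a))
    (fun v => algebraMap (MvPolynomial σ F) (FractionRing (MvPolynomial σ F)) (X v)) =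
  algebraMap (MvPolynomial σ F) (FractionRing (MvPolynomial σ F)) f

/-! ### rectangular permanents -/

/-- Rectangular permanent of a list `φ_1, ..., φ_k` of rows: the sum over the injective maps
`u : {1, ..., k} → Q` of `∏ φ_t (u t)`. -/
def pr {β : Type} [DecidableEq β] : List (β → ℤ) → Finset β → ℤ
  | [], _ => 1
  | φ :: φs, Q => ∑ l ∈ Q, φ l * pr φs (Q.erase l)

/-- Rectangular permanent of the rows `Y p`, `p ∈ P`, with the set `Q` of columns. -/
noncomputable def pe {α β : Type} [DecidableEq β] (Y : α → β → ℤ) (P : Finset α)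
    (Q : Finset β) : ℤ := pr (P.toList.map Y) Q

/-- The lists obtained from `φs` by multiplying one member by `φ`. -/
def mg {β : Type} (φ : β → ℤ) : List (β → ℤ) → List (List (β → ℤ))
  | [] => []
  | ψ :: ψs => ((fun l => ψ l * φ l) :: ψs) :: (mg φ ψs).map (List.cons ψ)

/-! ### the matrix -/

/-- indices of the rows (columns) which contain the variables of `T` -/
abbrev Ar (r : ℕ) : Type := Fin r ⊕ Fin r

/-- the other rows (columns): the `2^r` subsets of `Fin r` -/
abbrev Mr (r : ℕ) : Type := Finset (Fin r)

/-- all indices; the last `e` ones are only used to fill up the matrix -/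
abbrev Idx (r e : ℕ) : Type := (Ar r ⊕ Mr r) ⊕ Fin e

/-- the characters of the group of subsets of `Fin r` -/
def chi {r : ℕ} (D l : Mr r) : ℤ := (-1) ^ (D ∩ l).card

/-- the rows `B_a` -/
def Bm {r : ℕ} : Ar r → Mr r → ℤ
  | Sum.inl a, l => chi {a} l
  | Sum.inr _, _ => 1

/-- the columns `C_b` -/
def Cm {r : ℕ} : Ar r → Mr r → ℤ
  | Sum.inl _, _ => 1
  | Sum.inr b, l => chi {b} l

/-- The point `Y0 = [[0, B], [C, J]] ⊕ 1`, `J` the matrix with all entries `1`. -/
def Y0 {r e : ℕ} : Idx r e → Idx r e → ℤ
  | Sum.inl (Sum.inl _), Sum.inl (Sum.inl _) => 0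
  | Sum.inl (Sum.inl a), Sum.inl (Sum.inr l) => Bm a l
  | Sum.inl (Sum.inr i), Sum.inl (Sum.inl b) => Cm b i
  | Sum.inl (Sum.inr _), Sum.inl (Sum.inr _) => 1
  | Sum.inr p, Sum.inr q => if p = q then 1 else 0
  | Sum.inl _, Sum.inr _ => 0
  | Sum.inr _, Sum.inl _ => 0

/-- `Y0` with the row `a` replaced by the unit vector `e_a` for `a ∈ S`, and the row `i ∈ M` replaced
by the unit vector `e_j`, `j ∈ M`. -/
def Jr {r e : ℕ} (S : Finset (Ar r)) (i j : Mr r) (p q : Idx r e) : ℤ :=
  if p = Sum.inl (Sum.inr i) then (if q = Sum.inl (Sum.inr j) then 1 else 0)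
  else if p ∈ S.image (fun a => (Sum.inl (Sum.inl a) : Idx r e)) then (if q = p then 1 else 0)
  else Y0 p q

/-! ### variables -/

/-- the variable `t_a`, at the position `(a, a)` -/
def tv {r e : ℕ} (a : Ar r) : Idx r e × Idx r e := (Sum.inl (Sum.inl a), Sum.inl (Sum.inl a))

/-- the variables which are not in `T` -/
abbrev Nv (r e : ℕ) : Type := {v : Idx r e × Idx r e // ∀ a, v ≠ tv a}

/-- the variable `x_ij`, `i, j ∈ M` -/
def xv {r e : ℕ} (i j : Mr r) : Nv r e :=
  ⟨(Sum.inl (Sum.inr i), Sum.inl (Sum.inr j)), fun a h => by simp [tv] at h⟩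

/-- the variables of `T` and the other ones -/
noncomputable def eqv (r e : ℕ) : Ar r ⊕ Nv r e ≃ Idx r e × Idx r e :=
  Equiv.ofBijective (Sum.elim tv Subtype.val) (by
    constructor
    · rintro (a | v) (b | w) h
      · have h1 := congrArg Prod.fst h
        simp only [Sum.elim_inl, tv, Sum.inl.injEq] at h1
        rw [h1]
      · exact absurd h.symm (w.2 a)
      · exact absurd h (v.2 b)
      · exact congrArg Sum.inr (Subtype.ext h)
    · intro v
      by_cases h : ∃ a, v = tv a
      · obtain ⟨a, ha⟩ := h
        exact ⟨Sum.inl a, ha.symm⟩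
      · push Not at h
        exact ⟨Sum.inr ⟨v, h⟩, rfl⟩)

/-- the permanent of the matrix of variables with index set `Idx r e` -/
noncomputable def permI (r e : ℕ) (R : Type) [CommRing R] : MvPolynomial (Idx r e × Idx r e) R :=
  Matrix.permanent (Matrix.of fun p q => X (p, q))

/-- the same polynomial in the variables `t_a`, `a ∈ A`, and the other ones -/
noncomputable def permS (r e : ℕ) (R : Type) [CommRing R] :
    MvPolynomial (Ar r ⊕ Nv r e) R := rename (eqv r e).symm (permI r e R)

/-- the value of the point `Y0` in the ring `R`, at the variables which are not in `T` -/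
def pt (r e : ℕ) (R : Type) [CommRing R] (v : Nv r e) : R := ((Y0 v.1.1 v.1.2 : ℤ) : R)

/-! ### coefficients -/

/-- exponent vector of the monomial `∏_{a ∈ S} t_a` -/
noncomputable def ind {A : Type} (S : Finset A) : A →₀ ℕ := ∑ a ∈ S, Finsupp.single a 1

/-- the coefficient of `∏_{a ∈ S} t_a` of a polynomial in the variables `t_a`, `a ∈ A`, and the
variables `v ∈ N`: a polynomial in the variables `v` -/
noncomputable def co {A N R : Type} [CommRing R] (S : Finset A) (f : MvPolynomial (A ⊕ N) R) :
    MvPolynomial N R := coeff (ind S) (sumAlgEquiv R A N f)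

/-- substitution of the values `x` for the variables `v ∈ N` -/
noncomputable def sub {A N R : Type} [CommRing R] (x : N → R) :
    MvPolynomial (A ⊕ N) R →+* MvPolynomial A R :=
  eval₂Hom (C : R →+* MvPolynomial A R) (Sum.elim X fun v => C (x v))

/-- the characters of the group `M × M`, indexed by the subsets of `A` -/
def Lm {r : ℕ} (S : Finset (Ar r)) (i j : Mr r) : ℤ :=
  chi (Finset.toLeft Sᶜ) j * chi (Finset.toRight Sᶜ) i

end Pool.Agent.Work.MP_499dc6_lc.FS
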