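import Pool.Agent.Work.MP_499dc6_lc.FS.Stmts

set_option autoImplicit false

/-!
# Block [499dc6 FS], item Blk
-/

open MvPolynomial Finset
open scoped Nat

namespace Pool.Agent.Work.MP_499dc6_lc.FS

/-- extension of an injective map -/
lemma Blk_ext (A B C : Type) [Fintype A] [Fintype B] [Fintype C] (f : A → C)
    (hf : Function.Injective f) (hc : Fintype.card A + Fintype.card B = Fintype.card C) :
    ∃ u : A ⊕ B ≃ C, ∀ a, u (Sum.inl a) = f a := by
  classical
  have h1 : Fintype.card B = Fintype.card ((Set.range f)ᶜ : Set C) := by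
    rw [Fintype.card_compl_set, Set.card_range_of_injective hf]
    omega
  refine ⟨(Equiv.sumCongr (Equiv.ofInjective f hf) (Fintype.equivOfCardEq h1)).trans
    (Equiv.Set.sumCompl (Set.range f)), fun a => ?_⟩
  rfl

/-- the permanent is invariant under bijections of the rows and of the columns -/
lemma Blk_perm {ι ι' R : Type} [Fintype ι] [DecidableEq ι] [Fintype ι'] [DecidableEq ι']
    [CommRing R] (a b : ι' ≃ ι) :
    rename (Prod.map a.symm b.symm)
      (Matrix.permanent (Matrix.of fun i j => (X (i, j) : MvPolynomial (ι × ι) R))) =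
    Matrix.permanent (Matrix.of fun i j => (X (i, j) : MvPolynomial (ι' × ι') R)) := by
  simp only [Matrix.permanent, map_sum, map_prod, Matrix.of_apply, rename_X, Prod.map_apply]
  refine Fintype.sum_equiv (Equiv.equivCongr b.symm a.symm) _ _ fun σ => ?_
  refine Fintype.prod_equiv b.symm _ _ fun i => ?_
  simp [Equiv.equivCongr]

theorem prf_Blk (h1 : StInd) (h2 : StKal) (h3 : StRen) : StBlk := by
  intro n r hr hn ρ κ hρ hκ O K F _ _ _ _ io π hio f hf Φ hΦ
  obtain ⟨e, he⟩ : ∃ e, e = n - (2 * r + 2 ^ r) := ⟨_, rfl⟩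
  have hcard : Fintype.card (Ar r) + Fintype.card (Mr r ⊕ Fin e) = Fintype.card (Fin n) := by
    simp only [Fintype.card_sum, Fintype.card_fin, Fintype.card_finset]
    omega
  obtain ⟨u₁, hu₁⟩ := Blk_ext (Ar r) (Mr r ⊕ Fin e) (Fin n) ρ hρ hcard
  obtain ⟨u₂, hu₂⟩ := Blk_ext (Ar r) (Mr r ⊕ Fin e) (Fin n) κ hκ hcard
  set ρ' : Idx r e ≃ Fin n := (Equiv.sumAssoc (Ar r) (Mr r) (Fin e)).trans u₁ with hρ'
  set κ' : Idx r e ≃ Fin n := (Equiv.sumAssoc (Ar r) (Mr r) (Fin e)).trans u₂ with hκ'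
  have e1 : ∀ a, ρ' (Sum.inl (Sum.inl a)) = ρ a := fun a => hu₁ a
  have e2 : ∀ a, κ' (Sum.inl (Sum.inl a)) = κ a := fun a => hu₂ a
  set u : Fin n × Fin n ≃ Ar r ⊕ Nv r e :=
    (Equiv.prodCongr ρ'.symm κ'.symm).trans (eqv r e).symm with hu
  have hcoe : (u : Fin n × Fin n → Ar r ⊕ Nv r e) = (eqv r e).symm ∘ Prod.map ρ'.symm κ'.symm := rfl
  have hperm : map π (rename u f) = permS r e K := by
    rw [map_rename, hf, hcoe, ← rename_rename, Blk_perm ρ' κ']
    rfl
  have hind := h1 r e hr O K F io π hio (rename u f) hperm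
  obtain ⟨hC, hl⟩ := h3 F (Fin n × Fin n) (Ar r ⊕ Nv r e) u Φ (map io f) hΦ
  rw [← map_rename] at hC
  have hk := h2 F (Ar r) (Nv r e) (Φ.ren u) _ hC hind
  have himg : (Set.range (Sum.inl : Ar r → Ar r ⊕ Nv r e)) =
      u '' (Set.range fun a => (ρ a, κ a)) := by
    rw [← Set.range_comp]
    congr 1
    funext a
    show Sum.inl a = (eqv r e).symm (ρ'.symm (ρ a), κ'.symm (κ a))
    rw [← e1, ← e2, Equiv.symm_apply_apply, Equiv.symm_apply_apply, Equiv.eq_symm_apply]
    rfl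
  rw [himg, hl] at hk
  have h4 : 2 ^ Fintype.card (Ar r) = 4 ^ r := by
    simp only [Fintype.card_sum, Fintype.card_fin]
    rw [← two_mul, pow_mul]
    norm_num
  rw [h4] at hk
  exact hk

end Pool.Agent.Work.MP_499dc6_lc.FS
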