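import Pool.Agent.Work.MP_499dc6_lc.FS.Stmts

set_option autoImplicit false

/-! Item Cf: the coefficients of the permanent of `Zm`. -/

open MvPolynomial

namespace Pool.Agent.Work.MP_499dc6_lc.FS

/-- the integer entries -/
def Cf_z {r e : ℕ} (i j : Mr r) (p q : Idx r e) : ℤ :=
  if p = Sum.inl (Sum.inr i) then (if q = Sum.inl (Sum.inr j) then 1 else 0) else Y0 p q

theorem Cf_diag {r e : ℕ} (R : Type) [CommRing R] (i j : Mr r) (a : Ar r) :
    Zm (e := e) R i j (Sum.inl (Sum.inl a)) (Sum.inl (Sum.inl a)) = X a := by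
  have h1 : (Sum.inl (Sum.inl a) : Idx r e) ≠ Sum.inl (Sum.inr i) := by simp
  rw [Zm, if_neg h1]
  have h2 : ∀ b : Ar r, ((Sum.inl (Sum.inl a), Sum.inl (Sum.inl a)) : Idx r e × Idx r e) = tv b ↔
      b = a := by
    intro b
    constructor
    · intro h
      have := congrArg Prod.fst h
      simp only [tv, Sum.inl.injEq] at this
      exact this.symm
    · rintro rfl
      rfl
  simp only [h2, Y0, Int.cast_zero, zero_add, Finset.sum_ite_eq', Finset.mem_univ, if_true]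

theorem Cf_off {r e : ℕ} (R : Type) [CommRing R] (i j : Mr r) (p q : Idx r e)
    (h : ∀ a : Ar r, ¬ (p = q ∧ q = Sum.inl (Sum.inl a))) :
    Zm (e := e) R i j p q = C ((Cf_z i j p q : ℤ) : R) := by
  have h2 : ∀ b : Ar r, ¬ ((p, q) : Idx r e × Idx r e) = tv b := by
    intro b hb
    simp only [tv, Prod.mk.injEq] at hb
    exact h b ⟨hb.1.trans hb.2.symm, hb.2⟩
  rw [Zm, Cf_z]
  split_ifs
  · simp
  · simp
  · simp only [h2, if_false, Finset.sum_const_zero, add_zero]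
    exact (map_intCast (C : R →+* MvPolynomial (Ar r) R) _).symm

open Classical in
/-- the fixed indices of `σ` -/
noncomputable def Cf_H {r e : ℕ} (σ : Equiv.Perm (Idx r e)) : Finset (Ar r) :=
  Finset.univ.filter fun a => σ (Sum.inl (Sum.inl a)) = Sum.inl (Sum.inl a)

theorem Cf_mem {r e : ℕ} (σ : Equiv.Perm (Idx r e)) (a : Ar r) :
    a ∈ Cf_H σ ↔ σ (Sum.inl (Sum.inl a)) = Sum.inl (Sum.inl a) := by
  simp [Cf_H]

theorem Cf_ind_inj {A : Type} (S T : Finset A) (h : ind S = ind T) : S = T := by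
  classical
  ext a
  have h1 : ∀ U : Finset A, ind U a = if a ∈ U then 1 else 0 := by
    intro U
    rw [ind, Finsupp.finsetSum_apply]
    simp [Finsupp.single_apply]
  have h2 := DFunLike.congr_fun h a
  rw [h1, h1] at h2
  by_cases h3 : a ∈ S <;> by_cases h4 : a ∈ T <;> simp_all

/-- the indices in `S` as indices of rows -/
def Cf_D {r e : ℕ} (S : Finset (Ar r)) : Finset (Idx r e) :=
  S.image fun a => Sum.inl (Sum.inl a)

theorem Cf_memD {r e : ℕ} (S : Finset (Ar r)) (a : Ar r) :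
    (Sum.inl (Sum.inl a) : Idx r e) ∈ Cf_D (e := e) S ↔ a ∈ S := by
  simp [Cf_D]

/-- the product of the entries of `Zm` -/
theorem Cf_prod {r e : ℕ} (R : Type) [CommRing R] (i j : Mr r) (σ : Equiv.Perm (Idx r e)) :
    ∏ p, Zm (e := e) R i j (σ p) p = monomial (ind (Cf_H σ))
      (((∏ p ∈ (Cf_D (e := e) (Cf_H σ))ᶜ, Cf_z i j (σ p) p : ℤ)) : R) := by
  rw [← Finset.prod_mul_prod_compl (Cf_D (e := e) (Cf_H σ))]
  have h1 : ∏ p ∈ Cf_D (e := e) (Cf_H σ), Zm (e := e) R i j (σ p) p =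
      monomial (ind (Cf_H σ)) 1 := by
    rw [Cf_D, Finset.prod_image (fun a _ b _ h => by simpa using h)]
    have h2 : ∀ a ∈ Cf_H σ, Zm (e := e) R i j (σ (Sum.inl (Sum.inl a))) (Sum.inl (Sum.inl a)) =
        X a := by
      intro a ha
      rw [(Cf_mem σ a).1 ha, Cf_diag]
    rw [Finset.prod_congr rfl h2, ind, monomial_sum_one]
    rfl
  have h3 : ∏ p ∈ (Cf_D (e := e) (Cf_H σ))ᶜ, Zm (e := e) R i j (σ p) p =
      C (((∏ p ∈ (Cf_D (e := e) (Cf_H σ))ᶜ, Cf_z i j (σ p) p : ℤ)) : R) := by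
    rw [Int.cast_prod, map_prod]
    refine Finset.prod_congr rfl fun p hp => ?_
    refine Cf_off R i j _ _ fun a ha => ?_
    rw [Finset.mem_compl] at hp
    apply hp
    rw [ha.2, Cf_memD, Cf_mem]
    rw [← ha.2]
    exact ha.1
  rw [h1, h3, mul_comm, C_mul_monomial, mul_one]

theorem Cf_prodJ {r e : ℕ} (S : Finset (Ar r)) (i j : Mr r) (σ : Equiv.Perm (Idx r e))
    (h : Cf_H σ = S) : ∏ p, Jr (e := e) S i j (σ p) p =
      ∏ p ∈ (Cf_D (e := e) (Cf_H σ))ᶜ, Cf_z i j (σ p) p := by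
  subst h
  rw [← Finset.prod_mul_prod_compl (Cf_D (e := e) (Cf_H σ))]
  have h1 : ∏ p ∈ Cf_D (e := e) (Cf_H σ), Jr (e := e) (Cf_H σ) i j (σ p) p = 1 := by
    refine Finset.prod_eq_one fun p hp => ?_
    obtain ⟨a, ha, rfl⟩ := Finset.mem_image.1 hp
    have hp' : (Sum.inl (Sum.inl a) : Idx r e) ∈
        (Cf_H σ).image (fun a => (Sum.inl (Sum.inl a) : Idx r e)) := hp
    rw [(Cf_mem σ a).1 ha, Jr, if_neg (by simp), if_pos hp', if_pos rfl]
  rw [h1, one_mul]
  refine Finset.prod_congr rfl fun p hp => ?_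
  rw [Jr, Cf_z]
  split_ifs with h2 h3 h4 h5
  · rfl
  · rfl
  · exfalso
    obtain ⟨a, ha, hap⟩ := Finset.mem_image.1 h4
    rw [Finset.mem_compl] at hp
    apply hp
    rw [h5, ← hap]
    exact (Cf_memD _ _).2 ha
  · exfalso
    obtain ⟨a, ha, hap⟩ := Finset.mem_image.1 h4
    rw [Finset.mem_compl] at hp
    apply hp
    have h6 : σ p = σ (Sum.inl (Sum.inl a)) := by rw [(Cf_mem σ a).1 ha]; exact hap.symm
    rw [σ.injective h6]
    exact (Cf_memD _ _).2 ha
  · rfl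

theorem Cf_prodJ0 {r e : ℕ} (S : Finset (Ar r)) (i j : Mr r) (σ : Equiv.Perm (Idx r e))
    (h : Cf_H σ ≠ S) : ∏ p, Jr (e := e) S i j (σ p) p = 0 := by
  by_cases h1 : S ⊆ Cf_H σ
  · have h2 : ¬ Cf_H σ ⊆ S := fun h3 => h (Finset.Subset.antisymm h3 h1)
    obtain ⟨a, ha, haS⟩ := Finset.not_subset.1 h2
    refine Finset.prod_eq_zero (Finset.mem_univ (Sum.inl (Sum.inl a))) ?_
    rw [(Cf_mem σ a).1 ha, Jr, if_neg (by simp), if_neg]
    · rfl
    · intro h3
      exact haS ((Cf_memD (e := e) S a).1 h3)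
  · obtain ⟨a, ha, haH⟩ := Finset.not_subset.1 h1
    refine Finset.prod_eq_zero (Finset.mem_univ (σ.symm (Sum.inl (Sum.inl a)))) ?_
    rw [Equiv.apply_symm_apply, Jr, if_neg (by simp), if_pos, if_neg]
    · intro h3
      apply haH
      rw [Cf_mem]
      conv_lhs => rw [← h3]
      exact Equiv.apply_symm_apply σ _
    · exact (Cf_memD (e := e) S a).2 ha

theorem prf_Cf : StCf := by
  intro r e R _ S i j
  classical
  rw [Matrix.permanent, Matrix.permanent, coeff_sum, Int.cast_sum]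
  refine Finset.sum_congr rfl fun σ _ => ?_
  simp only [Matrix.of_apply]
  rw [Cf_prod, coeff_monomial]
  split_ifs with h
  · rw [Cf_prodJ S i j σ (Cf_ind_inj _ _ h)]
  · rw [Cf_prodJ0 S i j σ (fun h1 => h (by rw [h1])), Int.cast_zero]

end Pool.Agent.Work.MP_499dc6_lc.FS
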