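import Pool.Agent.Work.MP_499dc6_lc.FS.Stmts

set_option autoImplicit false

/-!
# Block [499dc6 FS], item COL: expansion in a new column
-/

open Finset

namespace Pool.Agent.Work.MP_499dc6_lc.FS

theorem prf_Col (h1 : StIns) : StCol := by
  intro α β _ _ Y P
  induction P using Finset.induction_on with
  | empty =>
    intro Q c _
    rw [(h1 α β Y _).1, (h1 α β Y _).1, Finset.sum_empty, add_zero]
  | insert b P' hb ih =>
    intro Q c hc
    have hL : pe Y (insert b P') (insert c Q) =
        Y b c * pe Y P' Q + ∑ l ∈ Q, (Y b l * pe Y P' (Q.erase l) +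
          ∑ b' ∈ P', Y b l * (Y b' c * pe Y (P'.erase b') (Q.erase l))) := by
      rw [(h1 α β Y (insert c Q)).2 P' b hb, Finset.sum_insert hc, Finset.erase_insert hc]
      congr 1
      refine Finset.sum_congr rfl fun l hl => ?_
      have hlc : l ≠ c := fun h => hc (h ▸ hl)
      rw [Finset.erase_insert_of_ne hlc.symm, ih (Q.erase l) c (fun h => hc (Finset.mem_of_mem_erase h)),
        mul_add, Finset.mul_sum]
    have hR : ∑ b' ∈ insert b P', Y b' c * pe Y ((insert b P').erase b') Q =
        Y b c * pe Y P' Q + ∑ b' ∈ P', ∑ l ∈ Q, Y b l * (Y b' c * pe Y (P'.erase b') (Q.erase l)) := by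
      rw [Finset.sum_insert hb, Finset.erase_insert hb]
      congr 1
      refine Finset.sum_congr rfl fun b' hb' => ?_
      have hbb : b ≠ b' := fun h => hb (h ▸ hb')
      rw [Finset.erase_insert_of_ne hbb,
        (h1 α β Y Q).2 (P'.erase b') b (fun h => hb (Finset.mem_of_mem_erase h)), Finset.mul_sum]
      refine Finset.sum_congr rfl fun l _ => ?_
      ring
    rw [hL, hR, (h1 α β Y Q).2 P' b hb, Finset.sum_add_distrib, Finset.sum_comm (s := Q)]
    ring

end Pool.Agent.Work.MP_499dc6_lc.FS
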