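import Pool.Agent.Work.MP_499dc6_lc.FS.Defs

set_option autoImplicit false

/-!
# Block [499dc6 FS]: formula size of the permanent.  Statements of the items, with complete proofs

THEOREM.  For `n ≥ 16` every arithmetic formula (`+`, `×`, `÷`) over a field of characteristic `0` which
computes `perm_n` has at least `n^4 / (512 log_2 n)` leaves labelled by variables (also in the border
sense: a polynomial `f` over a ring `O ⊆ F` which becomes `perm_n` under a homomorphism `O → K`).
Captain helper91.  Every docstring is the complete proof.  `T = {(a, a) : a ∈ A}`, `A = Ar r`, `M = Mr r`.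
-/

open MvPolynomial Finset
open scoped Nat

namespace Pool.Agent.Work.MP_499dc6_lc.FS

/-! ### A. rectangular permanents -/

/-- SW.  `pr` does not depend on the order of the rows.  Proof: `List.Perm.rec`; for two adjacent rows
`pr (f :: g :: fs) Q = ∑_{l ∈ Q} ∑_{l' ∈ Q \ l} f l g l' pr fs (Q \ l \ l')`, exchange the two sums
(`Finset.sum_comm'`) and use `(Q.erase l).erase l' = (Q.erase l').erase l` (`Finset.erase_right_comm`). -/
def StSw : Prop := ∀ (β : Type) [DecidableEq β] (fs gs : List (β → ℤ)) (Q : Finset β),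
  fs.Perm gs → pr fs Q = pr gs Q

/-- INS (uses StSw).  The recursion for `pe`.  Proof: `(insert b P).toList` is a permutation of
`b :: P.toList` (`Finset.toList_insert`), then SW and the definition of `pr`. -/
def StIns : Prop := ∀ (α β : Type) [DecidableEq α] [DecidableEq β] (Y : α → β → ℤ) (Q : Finset β),
  pe Y ∅ Q = 1 ∧
  ∀ (P : Finset α) (b : α), b ∉ P → pe Y (insert b P) Q = ∑ l ∈ Q, Y b l * pe Y P (Q.erase l)

/-- CG (uses StIns).  `pe Y P Q` depends only on the entries `Y p q`, `p ∈ P`, `q ∈ Q`.  Proof: induction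
on `P` (all `Q`) with INS. -/
def StCg : Prop := ∀ (α β : Type) [DecidableEq β] (Y Y' : α → β → ℤ) (P : Finset α)
  (Q : Finset β), (∀ p ∈ P, ∀ q ∈ Q, Y p q = Y' p q) → pe Y P Q = pe Y' P Q

/-- MAP (uses StIns).  Reindexing.  Proof: induction on `P` (all `Q`) with INS; `Finset.map_insert`,
`Finset.sum_map`, `(Q.map g).erase (g l) = (Q.erase l).map g` (`Finset.map_erase`). -/
def StMap : Prop := ∀ (α α' β β' : Type) [DecidableEq β] [DecidableEq β'] (Y : α → β → ℤ)
  (f : α' ↪ α) (g : β' ↪ β) (P : Finset α') (Q : Finset β'),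
  pe Y (P.map f) (Q.map g) = pe (fun a b => Y (f a) (g b)) P Q

/-- PER (uses StIns, StMap).  The square case is the permanent.  Proof.  (1) For `ι = Fin n` and rows
`Y : Fin k → Fin n → ℤ`: `pe Y univ Q` is the sum over the injective maps `u : Fin k → Fin n` with values in `Q`
of `∏ Y t (u t)` (induction on `k`: `univ = insert 0 (univ.map Fin.succEmb)`, INS, MAP, and `Fin.consEquiv` /
`Fin.cons_injective_iff`); for `k = n`, `Q = univ` the injective maps are the permutations
(`Equiv.ofBijective`, `Finite.injective_iff_bijective`), and `Matrix.permanent` is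
`∑ σ, ∏ i, Y (σ i) i`; replace `σ` by its inverse.  (2) General `ι`: choose `ι ≃ Fin n`, MAP and reindexing of the
sum over the permutations (`Equiv.permCongr`).  (Another way: generalise to arbitrary finite sets `P`, `Q`.) -/
def StPer : Prop := ∀ (ι : Type) [Fintype ι] [DecidableEq ι] (Y : ι → ι → ℤ),
  (Matrix.of Y).permanent = pe Y univ univ

/-- COL (uses StIns).  Expansion in the new column `c`.  Proof: induction on `P` (all `Q`).
`P = insert b P'`: by INS the left side is `Y b c pe Y P' Q + ∑_{l ∈ Q} Y b l pe Y P' (insert c (Q \ l))`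
(`Finset.sum_insert`, `(insert c Q).erase l = insert c (Q.erase l)` for `l ≠ c`), apply the induction
hypothesis to `Q \ l`: `∑_{l ∈ Q} Y b l (pe Y P' (Q \ l) + ∑_{b' ∈ P'} Y b' c pe Y (P' \ b') (Q \ l))`, exchange
the sums and use INS for `insert b (P' \ b') = (insert b P') \ b'`. -/
def StCol : Prop := ∀ (α β : Type) [DecidableEq α] [DecidableEq β] (Y : α → β → ℤ)
  (P : Finset α) (Q : Finset β) (c : β), c ∉ Q →
  pe Y P (insert c Q) = pe Y P Q + ∑ b ∈ P, Y b c * pe Y (P.erase b) Q

/-- SM (uses StIns).  More rows than columns.  Proof: induction on `P` (all `Q`) with INS. -/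
def StSm : Prop := ∀ (α β : Type) [DecidableEq β] (Y : α → β → ℤ) (P : Finset α) (Q : Finset β),
  Q.card < P.card → pe Y P Q = 0

/-- UN (uses StIns).  Rows which are unit vectors.  Proof: induction on `U` (all `Q`): for
`U = insert u U'` INS gives `pe Y (U' ∪ P) (Q.erase (c u))`, and
`(Q.erase (c u)) \ U'.image c = Q \ (insert u U').image c`. -/
def StUn : Prop := ∀ (α β : Type) [DecidableEq α] [DecidableEq β] (Y : α → β → ℤ)
  (U P : Finset α) (Q : Finset β) (c : α → β), Disjoint U P → Set.InjOn c (U : Set α) →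
  (∀ u ∈ U, c u ∈ Q) → (∀ u ∈ U, ∀ l, Y u l = if l = c u then 1 else 0) →
  pe Y (U ∪ P) Q = pe Y P (Q \ U.image c)

/-! ### B. characters -/

/-- MG.  Summing over the place of the first row last.  Proof: induction on `fs` (all `Q`).  `fs = []`:
`∑_{l ∈ Q} f l`.  `fs = g :: gs`: `pr (f :: g :: gs) Q = pr (g :: f :: gs) Q` (exchange the two sums)
`= ∑_{l ∈ Q} g l pr (f :: gs) (Q \ l)`; by the induction hypothesis
`pr (f :: gs) (Q \ l) = (∑_{l' ∈ Q} f l' - f l) pr gs (Q \ l) - ∑_{hs ∈ mg f gs} pr hs (Q \ l)`; the term with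
`- f l` gives `- pr ((g f) :: gs) Q`, the last sum gives `- ∑_{hs ∈ mg f gs} pr (g :: hs) Q`. -/
def StMg : Prop := ∀ (β : Type) [DecidableEq β] (f : β → ℤ) (fs : List (β → ℤ)) (Q : Finset β),
  pr (f :: fs) Q = (∑ l ∈ Q, f l) * pr fs Q - ((mg f fs).map fun gs => pr gs Q).sum

/-- ORT (no hypotheses).  Characters of the group of subsets of `Fin r`.  Proof of (1):
`(D ∪ D') ∩ l = (D ∩ l) ∪ (D' ∩ l)`, disjoint.  (2) `D = ∅`: all values are `1` and there are `2^r` subsets; if
`a ∈ D`, the involution `l ↦ l ∆ {a}` changes the sign of `chi D l` (`Finset.sum_involution`).  (3)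
`chi D l chi D' l = chi (D ∆ D') l`: `|D ∩ l| + |D' ∩ l| = |(D ∆ D') ∩ l| + 2 |D ∩ D' ∩ l|`, and (2).  (Or: all
three are products over the elements `a : Fin r`, `chi D l = ∏_{a ∈ D} (if a ∈ l then -1 else 1)`, and
`∑_l ∏_a F a (a ∈ l) = ∏_a (F a True + F a False)`, `Finset.prod_add`.) -/
def StOrt : Prop := ∀ (r : ℕ),
  (∀ D D' l : Mr r, Disjoint D D' → chi (D ∪ D') l = chi D l * chi D' l) ∧
  (∀ D : Mr r, ∑ l : Mr r, chi D l = if D = ∅ then 2 ^ r else 0) ∧
  ∀ D D' : Mr r, ∑ l : Mr r, chi D l * chi D' l = if D = D' then 2 ^ r else 0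

/-- CH (uses StMg, StOrt).  Proof: induction on the length, for all lists.  For `Ds = D :: Ds'` MG with
`Q = univ \ j`: `∑_{l ≠ j} chi D l = - chi D j` (ORT (2), `D ≠ ∅`), so the value is
`- chi D j pr (chi Ds') - ∑ pr (the lists of mg)`; each of the `length Ds'` lists of
`mg (chi D) (Ds'.map chi)` is `Es.map chi` for the list `Es` which is `Ds'` with one member `D'` replaced by
`D' ∪ D` (ORT (1)), again pairwise disjoint and nonempty, of the same length, and
`∏_{E ∈ Es} chi E j = chi D j ∏_{D' ∈ Ds'} chi D' j`.  So the value is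
`- chi D j (-1)^s s! ∏ - s chi D j (-1)^s s! ∏ = (-1)^(s+1) (s+1)! chi D j ∏`, `s = length Ds'`. -/
def StCh : Prop := ∀ (r : ℕ) (Ds : List (Mr r)) (j : Mr r), Ds.Pairwise Disjoint →
  (∀ D ∈ Ds, D.Nonempty) →
  pr (Ds.map chi) (univ.erase j) =
    (-1) ^ Ds.length * (Ds.length ! : ℤ) * (Ds.map fun D => chi D j).prod

/-- ON (no hypotheses).  Additional rows with all entries `1`.  Proof: `fs = []`: induction on `k`
(`∑_{l ∈ Q} (|Q| - 1).descFactorial k = |Q| (|Q| - 1).descFactorial k = |Q|.descFactorial (k + 1)`).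
Induction on `fs`: `|Q \ l| - length fs = |Q| - (length fs + 1)` for `l ∈ Q`. -/
def StOn : Prop := ∀ (β : Type) [DecidableEq β] (fs : List (β → ℤ)) (Q : Finset β) (k : ℕ),
  pr (fs ++ List.replicate k fun _ => 1) Q =
    pr fs Q * (((Q.card - fs.length).descFactorial k : ℕ) : ℤ)

/-- BE (uses StSw, StCh, StOn).  Proof: `R.toList` is a permutation of
`R.toLeft.toList.map inl ++ R.toRight.toList.map inr` (both have no duplicates and the same elements); so
`R.toList.map Bm` is a permutation of `(R.toLeft.toList.map fun a => chi {a}) ++ replicate |R.toRight| 1`.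
CH for the list of the sets `{a}`, `a ∈ R.toLeft`, and ON (`|univ \ j| = 2^r - 1`);
`∏_{a ∈ D} chi {a} j = chi D j`.  The second formula is the same with left and right exchanged. -/
def StBe : Prop := ∀ (r : ℕ) (R : Finset (Ar r)) (j : Mr r),
  pe Bm R (univ.erase j) = (-1) ^ R.toLeft.card * (R.toLeft.card ! : ℤ) *
    (((2 ^ r - 1 - R.toLeft.card).descFactorial R.toRight.card : ℕ) : ℤ) * chi R.toLeft j ∧
  pe Cm R (univ.erase j) = (-1) ^ R.toRight.card * (R.toRight.card ! : ℤ) *
    (((2 ^ r - 1 - R.toRight.card).descFactorial R.toLeft.card : ℕ) : ℤ) * chi R.toRight j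

/-! ### C. the permanent at the point `Y0` -/

/-- HH (uses StIns, StCol, StSm).  The rows `i ∈ P` have the entries `Cc b i` in the columns `b ∈ R` and `1` in
the columns of `W`.  Proof: induction on `P`, all `R`, `W`.  `P = ∅`: `R = W = ∅`.  `P = insert i P'`: by INS
the left side is `∑_{b ∈ R} Cc b i pe (P') ((R \ b) ⊔ W) + ∑_{w ∈ W} pe (P') (R ⊔ (W \ w))`.  Induction hypothesis:
`|W|! ∑_{b ∈ R} Cc b i pe Cc (R \ b) P'` and `|W| (|W| - 1)! pe Cc R P'` (if `W = ∅` the second sum is `0`, and
`pe Cc R P' = 0` by SM because `|P'| < |R|`).  By COL (rows `R`, new column `i`)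
`pe Cc R (insert i P') = pe Cc R P' + ∑_{b ∈ R} Cc b i pe Cc (R \ b) P'`. -/
def StH : Prop := ∀ (A M : Type) [DecidableEq A] [DecidableEq M] (Cc : A → M → ℤ)
  (P W : Finset M) (R : Finset A), P.card = R.card + W.card →
  pe (fun i : M => Sum.elim (fun b => Cc b i) fun _ : M => 1) P (R.disjSum W) =
    (W.card ! : ℤ) * pe Cc R P

/-- RW (uses StIns, StH, StMap).  The rows `a ∈ R₀` have the entries `0` in the columns `b ∈ R` and `Bb a l` in the
columns `l ∈ W`.  Proof: induction on `R₀`, all `W`.  `R₀ = ∅`: `disjSum ∅ P = P.map inr`, MAP and HH.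
`R₀ = insert a R₁`: by INS the left side is `∑_{l ∈ W} Bb a l pe Y (R₁ ⊔ P) (R ⊔ (W \ l))` (the columns of `R` give
`0`; `(insert a R₁).disjSum P = insert (inl a) (R₁.disjSum P)`), induction hypothesis for `W \ l`:
`|W \ l| - |R₁| = |W| - |R₀|`, and INS for `pe Bb`. -/
def StRw : Prop := ∀ (A M : Type) [DecidableEq A] [DecidableEq M] (Bb Cc : A → M → ℤ)
  (P W : Finset M) (R₀ R : Finset A), P.card + R₀.card = R.card + W.card → R₀.card ≤ W.card →
  pe (Sum.elim (fun a => Sum.elim (fun _ : A => (0 : ℤ)) (Bb a))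
      (fun i : M => Sum.elim (fun b => Cc b i) fun _ : M => 1)) (R₀.disjSum P) (R.disjSum W) =
    ((W.card - R₀.card) ! : ℤ) * pe Bb R₀ W * pe Cc R P

/-- JJ (uses StPer, StUn, StMap, StCg, StRw).  Proof: PER; the rows `inr p`, the rows `a ∈ S` and the row `i`
are unit vectors: UN with `U` = their union and `c u = u`, except `c i = j`; the other rows are
`(Sᶜ ⊔ (univ \ i)).map inl` and the other columns `(Sᶜ ⊔ (univ \ j)).map inl`; MAP, CG, and RW with
`R₀ = R = Sᶜ`, `P = univ \ i`, `W = univ \ j` (`2^r - 1` elements). -/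
def StJ : Prop := ∀ (r e : ℕ) (S : Finset (Ar r)) (i j : Mr r), (Sᶜ).card ≤ 2 ^ r - 1 →
  (Matrix.of (Jr (e := e) S i j)).permanent =
    ((2 ^ r - 1 - (Sᶜ).card) ! : ℤ) * pe Bm Sᶜ (univ.erase j) * pe Cm Sᶜ (univ.erase i)

/-- ENT (uses StJ, StBe).  Proof: `|Sᶜ| ≤ 2 r ≤ 2^r - 1` for `r ≥ 3`; by JJ and BE the permanent is
`κ S * Lm S i j`, `κ S = (2^r-1-|R|)! (-1)^|R| |R_1|! |R_2|! (2^r-1-|R_1|).descFactorial |R_2| *
(2^r-1-|R_2|).descFactorial |R_1|`, `R = Sᶜ`, `R_1`, `R_2` its left and right part, `|R| = |R_1| + |R_2|`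
(`Finset.card_toLeft_add_card_toRight`), and the falling factorials are not `0`
(`Nat.descFactorial_eq_zero_iff_lt`). -/
def StEnt : Prop := ∀ r : ℕ, 3 ≤ r → ∃ κ : Finset (Ar r) → ℤ, (∀ S, κ S ≠ 0) ∧
  ∀ (e : ℕ) (S : Finset (Ar r)) (i j : Mr r),
    (Matrix.of (Jr (e := e) S i j)).permanent = κ S * Lm S i j

/-! ### D. coefficients and derivatives of the permanent -/

/-- SUB (no hypotheses).  Proof: `sub x g = map (eval x) (sumAlgEquiv g)` (both are ring homomorphisms, compare on
`C`, `X (inl a)`, `X (inr v)`), and the coefficients of `sumAlgEquiv (pderiv (inr v) f)` are the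
`pderiv v` of those of `sumAlgEquiv f` (both sides are additive in `f` and both are derivations in the
appropriate sense; `MvPolynomial.induction_on`, or compare on monomials
`monomial m c = C c * ∏ X (inl a)^.. * ∏ X (inr v)^..`). -/
def StSub : Prop := ∀ (A N R : Type) [CommRing R] (S : Finset A) (f : MvPolynomial (A ⊕ N) R)
  (v : N) (x : N → R),
  eval x (pderiv v (co S f)) = coeff (ind S) (sub x (pderiv (Sum.inr v) f))

/-- PD (no hypotheses).  Derivative of the permanent.  Proof: `Matrix.permanent M = ∑ σ, ∏ i, M (σ i) i`.  The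
variable `X (p, q)` occurs in the product of `σ` iff `σ q = p`, exactly once; both sides of the claim are
`∏_{i ≠ q} X (σ i, i)` if `σ q = p` and `0` if not (`Derivation.leibniz_prod` or `Finset.prod_erase_mul`;
for the right side: the factor of the column `i` with `σ i = p`). -/
def StPd : Prop := ∀ (ι R : Type) [Fintype ι] [DecidableEq ι] [CommRing R] (p q : ι),
  pderiv (p, q) (Matrix.permanent (Matrix.of fun a b => (X (a, b) : MvPolynomial (ι × ι) R))) =
    Matrix.permanent (Matrix.of fun a b =>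
      if a = p then (if b = q then (1 : MvPolynomial (ι × ι) R) else 0) else X (a, b))

/-- The matrix `Y0` with the variables `t_a` at the positions `(a, a)` and the row `i ∈ M` replaced by the
unit vector `e_j`. -/
noncomputable def Zm {r e : ℕ} (R : Type) [CommRing R] (i j : Mr r) :
    Idx r e → Idx r e → MvPolynomial (Ar r) R := fun p q =>
  if p = Sum.inl (Sum.inr i) then (if q = Sum.inl (Sum.inr j) then 1 else 0)
  else ((Y0 p q : ℤ) : MvPolynomial (Ar r) R) + ∑ a : Ar r, if (p, q) = tv a then X a else 0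

/-- CF (no hypotheses).  Proof: termwise in `Matrix.permanent M = ∑ σ, ∏ p, M (σ p) p`.  For a permutation `σ`
let `H = {a : σ a = a}`.  The product of `Zm` is `∏_{a ∈ H} t_a` times the integer
`∏_{p ∉ H} (entry of Y0 resp. of the unit row)`, because `Zm` is `t_a` at `(a, a)` (`Y0 (a, a) = 0`) and an
integer elsewhere; so its coefficient at `ind S` is this integer if `H = S` and `0` otherwise.  The
product of `Jr S i j`: if `S ⊄ H` a unit row `a ∈ S` gives `0`; if `a ∈ H \ S` the factor `Y0 a a = 0`; if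
`H = S` the same integer. -/
def StCf : Prop := ∀ (r e : ℕ) (R : Type) [CommRing R] (S : Finset (Ar r)) (i j : Mr r),
  coeff (ind S) (Matrix.permanent (Matrix.of (Zm (e := e) R i j))) =
    (((Matrix.of (Jr (e := e) S i j)).permanent : ℤ) : R)

/-- EV (uses StSub, StPd, StCf).  Proof: SUB; `pderiv (inr (xv i j)) (rename eqv.symm g) =
rename eqv.symm (pderiv (x_ij) g)` (`pderiv_rename`), PD for the pair `xv i j`; `sub pt` and `rename` are ring
homomorphisms, which commute with `permanent` (a sum of products of entries); the entries become those of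
`Zm`: the variable `(p, q)` goes to `t_a` if `(p, q) = tv a` (where `Y0 = 0`) and to the constant `Y0 p q`
otherwise.  Then CF. -/
def StEv : Prop := ∀ (r e : ℕ) (R : Type) [CommRing R] (S : Finset (Ar r)) (i j : Mr r),
  eval (pt r e R) (pderiv (xv i j) (co S (permS r e R))) =
    (((Matrix.of (Jr (e := e) S i j)).permanent : ℤ) : R)

/-! ### E. the Jacobian criterion -/

/-- JC (no hypotheses).  Jacobian criterion, `vs k` are some of the variables.  Proof: suppose
`P ≠ 0`, `aeval c P = 0`, `P` of least total degree (`MvPolynomial ι F`).  Chain rule: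
`0 = pderiv v (aeval c P) = ∑_s aeval c (pderiv s P) * pderiv v (c s)` (`MvPolynomial.induction_on`; or
`Derivation` API, `mkDerivation_ext`).  With the matrix `J s k = pderiv (vs k) (c s)` and `L` (constants):
the row vector `w s = aeval c (pderiv s P)` satisfies `w J = 0`, `w (J L) = 0`, so
`det (J L) w = 0` (`Matrix.vecMul`, `adjugate`), `det (J L) ≠ 0` because its value at `x` is the given
determinant, so `w = 0`; `pderiv s P` has smaller total degree, so `pderiv s P = 0` for all `s`.  In
characteristic `0` this gives `P = C a` (a monomial with exponent `m s > 0` would give a nonzero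
coefficient `m s * coeff` of `pderiv s P`), `a = 0`. -/
def StJC : Prop := ∀ (ι κ N F : Type) [Fintype ι] [DecidableEq ι] [Fintype κ] [Field F]
  [CharZero F] (c : ι → MvPolynomial N F) (x : N → F) (vs : κ → N) (L : Matrix κ ι F),
  ((Matrix.of fun (s : ι) (k : κ) => eval x (pderiv (vs k) (c s))) * L).det ≠ 0 →
  AlgebraicIndependent F c

/-- IND (uses StEnt, StEv, StOrt, StJC).  Proof.  `co S (map φ f) = map φ (co S f)`, and evaluation at `pt` and
`pderiv` commute with `map φ` too.  Let `D ∈ O` be the determinant of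
`(J L)_{S,S'} = ∑_{i,j} eval pt (pderiv (xv i j) (co S f)) * Lm S' i j`.  Its image under `π` is, by
EV and ENT, `det (κ S ∑_{i,j} Lm S i j Lm S' i j)`, and by ORT (3)
`∑_{i,j} Lm S i j Lm S' i j = 4^r` if `S = S'` (both parts of the complements are equal) and `0` otherwise; so
it is `∏_S κ S 4^r`, not `0` in `K` (characteristic `0`).  So `D ≠ 0`, `io D ≠ 0`, and `io D` is the
determinant in JC (with `κ = Mr r × Mr r`) for the polynomials `co S (map io f)`.  `F` has characteristic `0`:
an integer `n ≠ 0` is not `0` in `K`, so not in `O`, so not in `F`. -/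
def StInd : Prop := ∀ (r e : ℕ), 3 ≤ r → ∀ (O K F : Type) [CommRing O] [Field K] [CharZero K]
  [Field F] (io : O →+* F) (π : O →+* K), Function.Injective io →
  ∀ f : MvPolynomial (Ar r ⊕ Nv r e) O, map π f = permS r e K →
  AlgebraicIndependent F fun S : Finset (Ar r) => co S (map io f)

/-! ### F. Kalorkoti's lemma -/

/-- KA (no hypotheses).  Proof.  CLAIM: if `l = Φ.leavesIn T ≥ 1` there are a finite `P ⊆ L`, `|P| ≤ 8 (l - 1)`,
`y ∈ closure (range c ∪ P ∪ x '' T)`, and `a, b, a', b' ∈ L` with `a' y + b' ≠ 0` and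
`ev Φ = (a y + b) / (a' y + b')`.  Induction on `Φ`.  Variable of `T`: `P = ∅`, `y = x v`, `(1,0,0,1)`.  Gate with
`T`-leaves in both parts: `P = P₁ ∪ P₂ ∪ {the 8 parameters}`, `y` = the value of the gate, `(1,0,0,1)`;
`8 (l₁ - 1) + 8 (l₂ - 1) + 8 = 8 (l - 1)`.  Gate with `T`-leaves in one part only: the value `v` of the other
part is in `L`; `P`, `y` are kept and the gate is a fractional linear map of
`z = (a y + b) / (a' y + b')`: `z + v = ((a + v a') y + (b + v b')) / (a' y + b')`, `z v`, `z / v = (a y + b) /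
(v a' y + v b')` if `v ≠ 0`, `v / z = (v a' y + v b') / (a y + b)` if `z ≠ 0` (then `a y + b ≠ 0`); if `v = 0` resp.
`z = 0` the value is `0` (as `x / 0 = 0`): take `(0, 0, 0, 1)`.
The statement: `l ≥ 1`: add the four parameters to `P` (`8 (l - 1) + 4 ≤ 8 l + 1`).  `l = 0`: `ev Φ ∈ L`
(induction), `P = {ev Φ}`. -/
def StKA : Prop := ∀ (F σ E : Type) [Field F] [Field E] (c : F →+* E) (x : σ → E) (T : Set σ)
  (L : Subfield E), (∀ a, c a ∈ L) → (∀ v, v ∉ T → x v ∈ L) → ∀ Φ : Formula F σ,
  ∃ P : Finset E, (∀ p ∈ P, p ∈ L) ∧ P.card ≤ 8 * Φ.leavesIn T + 1 ∧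
    Φ.ev c x ∈ Subfield.closure (Set.range c ∪ (P : Set E) ∪ x '' T)

/-- KB (no hypotheses).  Proof.  The elements of the closure are quotients `A / B` of (images of) polynomials
with coefficients in `E`, `B ≠ 0` (`Subfield.closure_induction`; the set of such quotients is a
subfield: e.g. the range of the homomorphism of the fraction fields induced by
`map : MvPolynomial A E → MvPolynomial A L`, which is injective).  So `B q = A` in `MvPolynomial A L`.
Let `ρ : L → E` be `E`-linear with `ρ = id` on `E` (`LinearMap.exists_leftInverse_of_injective` for the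
inclusion `E → L`), applied to the coefficients: `ρ (B q) = B ρ(q)` because the coefficients of `B` are in `E`
(`coeff_mul`), so `B ρ(q) = ρ(A) = A = B q`, `q = ρ(q)`. -/
def StKB : Prop := ∀ (A L : Type) [Field L] (E : Subfield L) (q : MvPolynomial A L),
  algebraMap (MvPolynomial A L) (FractionRing (MvPolynomial A L)) q ∈
    Subfield.closure ((fun a : L => algebraMap (MvPolynomial A L)
        (FractionRing (MvPolynomial A L)) (C a)) '' (E : Set L) ∪
      Set.range fun a : A => algebraMap (MvPolynomial A L) (FractionRing (MvPolynomial A L)) (X a)) →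
  ∀ m, coeff m q ∈ E

/-- KC (no hypotheses).  Proof: the `c i` are algebraically independent elements of the field
`F₁ = adjoin F P` (`AlgebraicIndependent.of_...`, the inclusion `F₁ → L` is injective), so
`card ι ≤ trdeg F F₁`; and `trdeg F F₁ ≤ |P|` (`Algebra.trdeg_le_cardinalMk` in
`RingTheory/AlgebraicIndependent/TranscendenceBasis.lean`: `F₁` is algebraic over `Algebra.adjoin F P`, being its
field of fractions). -/
def StKC : Prop := ∀ (F L ι : Type) [Field F] [Field L] [Algebra F L] [Fintype ι] (P : Finset L)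
  (c : ι → L), (∀ i, c i ∈ IntermediateField.adjoin F (P : Set L)) → AlgebraicIndependent F c →
  Fintype.card ι ≤ P.card

/-- KAL (Kalorkoti's lemma; uses StKA, StKB, StKC).  Proof.  `L = FractionRing (MvPolynomial N F)`,
`E = FractionRing (MvPolynomial A L)`.  The injective homomorphism
`MvPolynomial (A ⊕ N) F → MvPolynomial A (MvPolynomial N F) → MvPolynomial A L → E` (`sumAlgEquiv`, `map`) extends
to the field of fractions (`IsFractionRing.lift`); it maps the value of `Φ` to
`Φ.ev c x`, `c a` = the constant, `x (inl a) = X a`, `x (inr v)` = the constant `X v ∈ L` (a field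
homomorphism commutes with `ev`), so `Φ.ev c x` is the image of `q = map (algebraMap) (sumAlgEquiv g)`.  KA with
`T = range inl` and the image of `L` in `E`: `P ⊆ L` (pull back), `|P| ≤ 8 l + 1`; KB with the subfield
`adjoin F P` of `L` gives that all coefficients of `q`, so the images of the `co S g` in `L`, are in
`adjoin F P`.  They are algebraically independent over `F` (`MvPolynomial N F → L` is injective), so
`2^|A| = card (Finset A) ≤ |P|` by KC. -/
def StKal : Prop := ∀ (F A N : Type) [Field F] [Fintype A] [DecidableEq A]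
  (Φ : Formula F (A ⊕ N)) (g : MvPolynomial (A ⊕ N) F), Computes Φ g →
  (AlgebraicIndependent F fun S : Finset A => co S g) →
  2 ^ Fintype.card A ≤ 8 * Φ.leavesIn (Set.range Sum.inl) + 1

/-- REN (no hypotheses).  Renaming of the variables by a bijection.  Proof: the isomorphism
`rename e` extends to the fields of fractions (`IsFractionRing.ringEquivOfRingEquiv` or
`IsFractionRing.map`) and commutes with `ev`; the second claim is an induction on `Φ`. -/
def StRen : Prop := ∀ (F σ τ : Type) [Field F] (u : σ ≃ τ) (Φ : Formula F σ)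
  (f : MvPolynomial σ F), Computes Φ f → Computes (Φ.ren u) (rename u f) ∧
  ∀ T : Set σ, (Φ.ren u).leavesIn (u '' T) = Φ.leavesIn T

/-! ### G. the theorem -/

/-- BLK (uses StInd, StKal, StRen).  Proof.  `e = n - (2 r + 2^r)`, `card (Idx r e) = n`.  There are bijections
`ρ', κ' : Idx r e ≃ Fin n` with `ρ' (inl (inl a)) = ρ a`, `κ' (inl (inl a)) = κ a` (extension of an injective
map, `Finset.exists_equiv_extend_of_card_eq`).  `u : Fin n × Fin n ≃ Ar r ⊕ Nv r e`,
`u = (ρ'⁻¹ × κ'⁻¹) then (eqv r e).symm`.  `map π (rename u f) = rename u perm_n = permS r e K` (the permanent is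
invariant under a bijection of the rows and one of the columns: `∑_σ ∏ X (ρ' (σ i), κ' i)`, reindex `σ`).
IND for `rename u f`, REN, and KAL for `Φ.ren u`; `u` maps `{(ρ a, κ a)}` onto the range of `inl`. -/
def StBlk : Prop := ∀ (n r : ℕ), 3 ≤ r → 2 * r + 2 ^ r ≤ n → ∀ (ρ κ : Ar r → Fin n),
  Function.Injective ρ → Function.Injective κ → ∀ (O K F : Type) [CommRing O] [Field K]
  [CharZero K] [Field F] (io : O →+* F) (π : O →+* K), Function.Injective io →
  ∀ f : MvPolynomial (Fin n × Fin n) O,
  map π f = Matrix.permanent (Matrix.of fun i j => X (i, j)) →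
  ∀ Φ : Formula F (Fin n × Fin n), Computes Φ (map io f) →
  4 ^ r ≤ 8 * Φ.leavesIn (Set.range fun a => (ρ a, κ a)) + 1

/-- PRT (no hypotheses).  Partition of the positions.  Proof: `k = 2 r`, identify `Ar r` with `Fin k`
(`finSumFinEquiv`).  `ρ s b t = b k + t < n`, `κ s b t = b k + t + s mod n`.  Both are injective in `t`.  The sets
`T s b = {(ρ s b t, κ s b t)}` are pairwise disjoint: the pair `(x, y)` determines `s = y - x mod n` and
`b = x / k`.  So `∑_{s, b} leavesIn (T s b) ≤ leaves` (induction on `Φ`: a variable belongs to at most one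
of the sets). -/
def StPrt : Prop := ∀ (n r : ℕ), 0 < r → 2 * r ≤ n →
  ∃ ρ κ : Fin n → Fin (n / (2 * r)) → Ar r → Fin n,
    (∀ s b, Function.Injective (ρ s b)) ∧ (∀ s b, Function.Injective (κ s b)) ∧
    ∀ (F : Type) (Φ : Formula F (Fin n × Fin n)),
      ∑ s, ∑ b, Φ.leavesIn (Set.range fun a => (ρ s b a, κ s b a)) ≤ Φ.leaves

/-- NUM (no hypotheses).  Proof: `r = Nat.log 2 n - 1`; `2^(r+1) ≤ n < 2^(r+2)`, so `r ≥ 3`,
`2^r ≤ n/2` and `4 r ≤ 2^(r+1) ≤ n`: the first two claims.  `4^r ≥ n²/16`, `n / (2r) ≥ n/(4r)` (real numbers on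
the right side, because `n ≥ 2 r`), so `8 N ≥ n * n/(4r) * n²/16`, `N ≥ n⁴/(512 r)`, and
`r ≤ log_2 n`. -/
def StNum : Prop := ∀ n : ℕ, 16 ≤ n → ∃ r : ℕ, 3 ≤ r ∧ 2 * r + 2 ^ r ≤ n ∧
  ∀ N : ℕ, n * (n / (2 * r)) * 4 ^ r ≤ 8 * N →
    (n : ℝ) ^ 4 / (512 * Real.logb 2 n) ≤ N

/-- MAIN (uses StBlk, StPrt, StNum).  Proof: `r` from NUM, `ρ, κ` from PRT; for all `s, b` BLK gives
`4^r ≤ 8 l_{s,b} + 1`, so `4^r ≤ 8 l_{s,b}` (`8` divides `4^r`, `r ≥ 2`); sum over the `n (n/(2r))` pairs. -/
def StMain : Prop := ∀ (n : ℕ), 16 ≤ n → ∀ (O K F : Type) [CommRing O] [Field K] [CharZero K]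
  [Field F] (io : O →+* F) (π : O →+* K), Function.Injective io →
  ∀ f : MvPolynomial (Fin n × Fin n) O,
  map π f = Matrix.permanent (Matrix.of fun i j => X (i, j)) →
  ∀ Φ : Formula F (Fin n × Fin n), Computes Φ (map io f) →
  (n : ℝ) ^ 4 / (512 * Real.logb 2 n) ≤ Φ.leaves

end Pool.Agent.Work.MP_499dc6_lc.FS
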