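import Mathlib
import Pool.Agent.Work.MP_499dc6_lc.FS.Stmts

set_option autoImplicit false

/-!
# Block [499dc6 FS], item Ind: algebraic independence of the coefficients
-/

open MvPolynomial Finset
open scoped Nat

namespace Pool.Agent.Work.MP_499dc6_lc.FS

/-- the coefficients commute with ring homomorphisms -/
theorem Ind_co {A N R R' : Type} [CommRing R] [CommRing R'] (θ : R →+* R') (S : Finset A)
    (f : MvPolynomial (A ⊕ N) R) : co S (map θ f) = map θ (co S f) := by
  unfold co
  have h1 : sumAlgEquiv R' A N (map θ f) = map (map θ) (sumAlgEquiv R A N f) := by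
    have h2 : (((sumAlgEquiv R' A N).toRingEquiv.toRingHom).comp (map θ)) =
        (map (map θ)).comp ((sumAlgEquiv R A N).toRingEquiv.toRingHom) := by
      apply MvPolynomial.ringHom_ext
      · intro a
        simp
      · rintro (a | b)
        · simp
        · simp
    exact congrArg (fun g : MvPolynomial (A ⊕ N) R →+* _ => g f) h2
  rw [h1, coeff_map]

/-- evaluation at the point commutes with ring homomorphisms -/
theorem Ind_ev (r e : ℕ) {R R' : Type} [CommRing R] [CommRing R'] (θ : R →+* R')
    (g : MvPolynomial (Nv r e) R) : eval (pt r e R') (map θ g) = θ (eval (pt r e R) g) := by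
  have h2 : (eval (pt r e R')).comp (map θ) = θ.comp (eval (pt r e R)) := by
    apply MvPolynomial.ringHom_ext
    · intro a
      simp
    · intro v
      simp [pt]
  exact congrArg (fun g' : MvPolynomial (Nv r e) R →+* R' => g' g) h2

/-- naturality of the matrix of derivatives -/
theorem Ind_nat (r e : ℕ) {R R' : Type} [CommRing R] [CommRing R'] (θ : R →+* R')
    (S : Finset (Ar r)) (v : Nv r e) (f : MvPolynomial (Ar r ⊕ Nv r e) R) :
    eval (pt r e R') (pderiv v (co S (map θ f))) = θ (eval (pt r e R) (pderiv v (co S f))) := by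
  rw [Ind_co, pderiv_map, Ind_ev]

theorem Ind_lr {r : ℕ} (S S' : Finset (Ar r)) (h1 : Finset.toLeft Sᶜ = Finset.toLeft S'ᶜ)
    (h2 : Finset.toRight Sᶜ = Finset.toRight S'ᶜ) : S = S' := by
  apply compl_injective
  ext (a | a)
  · rw [← Finset.mem_toLeft, ← Finset.mem_toLeft, h1]
  · rw [← Finset.mem_toRight, ← Finset.mem_toRight, h2]

theorem Ind_orth (h : StOrt) {r : ℕ} (S S' : Finset (Ar r)) :
    ∑ k : Mr r × Mr r, Lm S k.1 k.2 * Lm S' k.1 k.2 = if S = S' then 4 ^ r else 0 := by
  obtain ⟨-, -, h3⟩ := h r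
  rw [Fintype.sum_prod_type]
  have h4 : ∀ i j : Mr r, Lm S i j * Lm S' i j =
      (chi (Finset.toRight Sᶜ) i * chi (Finset.toRight S'ᶜ) i) *
      (chi (Finset.toLeft Sᶜ) j * chi (Finset.toLeft S'ᶜ) j) := by
    intro i j
    unfold Lm
    ring
  simp only [h4]
  rw [← Finset.sum_mul_sum, h3, h3]
  by_cases hS : S = S'
  · subst hS
    simp only [if_true]
    rw [← mul_pow]
    norm_num
  · rw [if_neg hS]
    by_cases h5 : Finset.toRight Sᶜ = Finset.toRight S'ᶜ
    · by_cases h6 : Finset.toLeft Sᶜ = Finset.toLeft S'ᶜ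
      · exact absurd (Ind_lr S S' h6 h5) hS
      · rw [if_neg h6, mul_zero]
    · rw [if_neg h5, zero_mul]

/-- the matrix of derivatives over the ring `R` -/
noncomputable def Ind_J (r e : ℕ) (R : Type) [CommRing R] (f : MvPolynomial (Ar r ⊕ Nv r e) R) :
    Matrix (Finset (Ar r)) (Mr r × Mr r) R :=
  Matrix.of fun S k => eval (pt r e R) (pderiv (xv k.1 k.2) (co S f))

/-- the matrix of characters over the ring `R` -/
noncomputable def Ind_L (r : ℕ) (R : Type) [CommRing R] :
    Matrix (Mr r × Mr r) (Finset (Ar r)) R := Matrix.of fun k S => ((Lm S k.1 k.2 : ℤ) : R)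

theorem Ind_det (r e : ℕ) {R R' : Type} [CommRing R] [CommRing R'] (θ : R →+* R')
    (f : MvPolynomial (Ar r ⊕ Nv r e) R) :
    (Ind_J r e R' (map θ f) * Ind_L r R').det = θ ((Ind_J r e R f * Ind_L r R).det) := by
  rw [RingHom.map_det]
  congr 1
  ext S S'
  simp only [RingHom.mapMatrix_apply, Matrix.map_apply, Matrix.mul_apply, map_sum, map_mul]
  refine Finset.sum_congr rfl fun k _ => ?_
  simp only [Ind_J, Ind_L, Matrix.of_apply, map_intCast]
  rw [Ind_nat]

/-- Item IND. -/
theorem prf_Ind (h1 : StEnt) (h2 : StEv) (h3 : StOrt) (h4 : StJC) : StInd := by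
  intro r e hr O K F _ _ _ _ io π hio f hf
  obtain ⟨κ, hκ, hent⟩ := h1 r hr
  have hchar : CharZero F := by
    constructor
    intro m n hmn
    have e1 : io (m : O) = io (n : O) := by
      rw [map_natCast, map_natCast]
      exact hmn
    have e2 : (m : O) = (n : O) := hio e1
    have e3 := congrArg π e2
    rw [map_natCast, map_natCast] at e3
    exact_mod_cast e3
  have hK : (Ind_J r e K (map π f) * Ind_L r K).det ≠ 0 := by
    have hdiag : Ind_J r e K (map π f) * Ind_L r K =
        Matrix.diagonal fun S => (κ S : K) * 4 ^ r := by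
      ext S S'
      rw [Matrix.mul_apply]
      have e1 : ∀ k : Mr r × Mr r, Ind_J r e K (map π f) S k * Ind_L r K k S' =
          ((κ S * (Lm S k.1 k.2 * Lm S' k.1 k.2) : ℤ) : K) := by
        intro k
        simp only [Ind_J, Ind_L, Matrix.of_apply]
        rw [hf, h2 r e K S k.1 k.2, hent e S k.1 k.2]
        push_cast
        ring
      simp only [e1]
      rw [← Int.cast_sum, ← Finset.mul_sum, Ind_orth h3]
      by_cases hS : S = S'
      · subst hS
        rw [if_pos rfl, Matrix.diagonal_apply_eq]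
        push_cast
        ring
      · rw [if_neg hS, Matrix.diagonal_apply_ne _ hS]
        simp
    rw [hdiag, Matrix.det_diagonal]
    apply Finset.prod_ne_zero_iff.2
    intro S _
    have e2 : ((κ S : ℤ) : K) ≠ 0 := Int.cast_ne_zero.2 (hκ S)
    have e3 : (4 : K) ^ r ≠ 0 := pow_ne_zero r (by norm_num)
    exact mul_ne_zero e2 e3
  rw [Ind_det] at hK
  have hD : (Ind_J r e O f * Ind_L r O).det ≠ 0 := by
    intro h
    rw [h, map_zero] at hK
    exact hK rfl
  have hF : (Ind_J r e F (map io f) * Ind_L r F).det ≠ 0 := by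
    rw [Ind_det]
    intro h
    exact hD ((map_eq_zero_iff io hio).1 h)
  exact h4 (Finset (Ar r)) (Mr r × Mr r) (Nv r e) F (fun S => co S (map io f)) (pt r e F)
    (fun k => xv k.1 k.2) (Ind_L r F) hF

end Pool.Agent.Work.MP_499dc6_lc.FS
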