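import Pool.Agent.Work.MP_499dc6_lc.FS.Stmts

set_option autoImplicit false

/-!
# Block [499dc6 FS], item INS: the recursion for rectangular permanents
-/

open Finset

namespace Pool.Agent.Work.MP_499dc6_lc.FS

theorem prf_Ins (h1 : StSw) : StIns := by
  intro α β _ _ Y Q
  refine ⟨?_, ?_⟩
  · unfold pe
    rw [Finset.toList_empty, List.map_nil]
    rfl
  · intro P b hb
    unfold pe
    rw [h1 β _ _ Q ((Finset.toList_insert hb).map Y), List.map_cons]
    rfl

end Pool.Agent.Work.MP_499dc6_lc.FS
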