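import Pool.Agent.Work.MP_499dc6_lc.FS.Stmts

set_option autoImplicit false

/-!
# Block [499dc6 FS], item J: the permanent of the matrices `Jr`
-/

open Finset
open scoped Nat

namespace Pool.Agent.Work.MP_499dc6_lc.FS

/-- the rows which are unit vectors -/
def J_U {r e : ℕ} (S : Finset (Ar r)) (i : Mr r) : Finset (Idx r e) :=
  (S.disjSum {i}).disjSum univ

/-- the place of the entry `1` of these rows -/
def J_c {r e : ℕ} (i j : Mr r) (u : Idx r e) : Idx r e :=
  if u = Sum.inl (Sum.inr i) then Sum.inl (Sum.inr j) else u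

theorem J_mem_U {r e : ℕ} (S : Finset (Ar r)) (i : Mr r) (u : Idx r e) :
    u ∈ J_U S i ↔ (∃ a ∈ S, u = Sum.inl (Sum.inl a)) ∨ u = Sum.inl (Sum.inr i) ∨
      ∃ p, u = Sum.inr p := by
  unfold J_U
  rcases u with (a | m) | p
  · rw [Finset.inl_mem_disjSum, Finset.inl_mem_disjSum]
    constructor
    · intro h
      exact Or.inl ⟨a, h, rfl⟩
    · rintro (⟨b, hb, h⟩ | h | ⟨p, h⟩)
      · simp only [Sum.inl.injEq] at h
        rw [h]
        exact hb
      · simp at h
      · simp at h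
  · rw [Finset.inl_mem_disjSum, Finset.inr_mem_disjSum, Finset.mem_singleton]
    constructor
    · rintro rfl
      exact Or.inr (Or.inl rfl)
    · rintro (⟨b, hb, h⟩ | h | ⟨p, h⟩)
      · simp at h
      · simp only [Sum.inl.injEq, Sum.inr.injEq] at h
        exact h
      · simp at h
  · rw [Finset.inr_mem_disjSum]
    exact ⟨fun _ => Or.inr (Or.inr ⟨p, rfl⟩), fun _ => Finset.mem_univ _⟩

theorem J_mem_P {r e : ℕ} (S : Finset (Ar r)) (i : Mr r) (u : Idx r e) :
    u ∈ (Sᶜ.disjSum (univ.erase i)).map (Function.Embedding.inl : (Ar r ⊕ Mr r) ↪ Idx r e) ↔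
      (∃ a, a ∉ S ∧ u = Sum.inl (Sum.inl a)) ∨ ∃ m, m ≠ i ∧ u = Sum.inl (Sum.inr m) := by
  rw [Finset.mem_map]
  constructor
  · rintro ⟨v, hv, rfl⟩
    rcases v with a | m
    · rw [Finset.inl_mem_disjSum, Finset.mem_compl] at hv
      exact Or.inl ⟨a, hv, rfl⟩
    · rw [Finset.inr_mem_disjSum] at hv
      exact Or.inr ⟨m, Finset.ne_of_mem_erase hv, rfl⟩
  · rintro (⟨a, ha, rfl⟩ | ⟨m, hm, rfl⟩)
    · exact ⟨Sum.inl a, by rw [Finset.inl_mem_disjSum, Finset.mem_compl]; exact ha, rfl⟩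
    · exact ⟨Sum.inr m, by
        rw [Finset.inr_mem_disjSum]
        exact Finset.mem_erase.2 ⟨hm, Finset.mem_univ m⟩, rfl⟩

theorem J_union {r e : ℕ} (S : Finset (Ar r)) (i : Mr r) :
    J_U S i ∪ (Sᶜ.disjSum (univ.erase i)).map
      (Function.Embedding.inl : (Ar r ⊕ Mr r) ↪ Idx r e) = univ := by
  ext u
  rw [Finset.mem_union, J_mem_U, J_mem_P]
  simp only [Finset.mem_univ, iff_true]
  rcases u with (a | m) | p
  · by_cases h : a ∈ S
    · exact Or.inl (Or.inl ⟨a, h, rfl⟩)
    · exact Or.inr (Or.inl ⟨a, h, rfl⟩)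
  · by_cases h : m = i
    · subst h
      exact Or.inl (Or.inr (Or.inl rfl))
    · exact Or.inr (Or.inr ⟨m, h, rfl⟩)
  · exact Or.inl (Or.inr (Or.inr ⟨p, rfl⟩))

theorem J_disj {r e : ℕ} (S : Finset (Ar r)) (i : Mr r) :
    Disjoint (J_U S i) ((Sᶜ.disjSum (univ.erase i)).map
      (Function.Embedding.inl : (Ar r ⊕ Mr r) ↪ Idx r e)) := by
  rw [Finset.disjoint_left]
  intro u h1 h2
  rw [J_mem_U] at h1
  rw [J_mem_P] at h2
  rcases h1 with ⟨a, ha, rfl⟩ | rfl | ⟨p, rfl⟩
  · rcases h2 with ⟨b, hb, hab⟩ | ⟨m, hm, hab⟩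
    · simp only [Sum.inl.injEq] at hab
      exact hb (hab ▸ ha)
    · simp at hab
  · rcases h2 with ⟨b, hb, hab⟩ | ⟨m, hm, hab⟩
    · simp at hab
    · simp only [Sum.inl.injEq, Sum.inr.injEq] at hab
      exact hm hab.symm
  · rcases h2 with ⟨b, hb, hab⟩ | ⟨m, hm, hab⟩
    · simp at hab
    · simp at hab

theorem J_injOn {r e : ℕ} (S : Finset (Ar r)) (i j : Mr r) :
    Set.InjOn (J_c (e := e) i j) (↑(J_U (e := e) S i) : Set (Idx r e)) := by
  intro u hu v hv h
  rw [Finset.mem_coe, J_mem_U] at hu hv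
  unfold J_c at h
  rcases hu with ⟨a, ha, rfl⟩ | rfl | ⟨p, rfl⟩ <;>
    rcases hv with ⟨b, hb, rfl⟩ | rfl | ⟨q, rfl⟩ <;> simp_all

theorem J_sdiff {r e : ℕ} (S : Finset (Ar r)) (i j : Mr r) :
    (univ : Finset (Idx r e)) \ (J_U S i).image (J_c i j) =
      (Sᶜ.disjSum (univ.erase j)).map (Function.Embedding.inl : (Ar r ⊕ Mr r) ↪ Idx r e) := by
  ext u
  rw [Finset.mem_sdiff, J_mem_P, Finset.mem_image]
  simp only [Finset.mem_univ, true_and]
  rcases u with (a | m) | p
  · constructor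
    · intro h
      refine Or.inl ⟨a, fun ha => h ⟨Sum.inl (Sum.inl a), ?_, ?_⟩, rfl⟩
      · rw [J_mem_U]
        exact Or.inl ⟨a, ha, rfl⟩
      · simp [J_c]
    · rintro (⟨b, hb, hab⟩ | ⟨m, hm, hab⟩) ⟨v, hv, hvu⟩
      · simp only [Sum.inl.injEq] at hab
        subst hab
        rw [J_mem_U] at hv
        unfold J_c at hvu
        rcases hv with ⟨c, hc, rfl⟩ | rfl | ⟨q, rfl⟩
        · simp at hvu
          exact hb (hvu ▸ hc)
        · simp at hvu
        · simp at hvu
      · simp at hab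
  · constructor
    · intro h
      refine Or.inr ⟨m, fun hm => h ⟨Sum.inl (Sum.inr i), ?_, ?_⟩, rfl⟩
      · rw [J_mem_U]
        exact Or.inr (Or.inl rfl)
      · simp [J_c, hm]
    · rintro (⟨b, hb, hab⟩ | ⟨m', hm, hab⟩) ⟨v, hv, hvu⟩
      · simp at hab
      · simp only [Sum.inl.injEq, Sum.inr.injEq] at hab
        subst hab
        rw [J_mem_U] at hv
        unfold J_c at hvu
        rcases hv with ⟨c, hc, rfl⟩ | rfl | ⟨q, rfl⟩
        · simp at hvu
        · simp at hvu
          exact hm hvu.symm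
        · simp at hvu
  · constructor
    · intro h
      refine absurd ⟨Sum.inr p, ?_, ?_⟩ h
      · rw [J_mem_U]
        exact Or.inr (Or.inr ⟨p, rfl⟩)
      · simp [J_c]
    · rintro (⟨b, hb, hab⟩ | ⟨m', hm, hab⟩)
      · simp at hab
      · simp at hab

theorem J_row {r e : ℕ} (S : Finset (Ar r)) (i j : Mr r) (u : Idx r e) (hu : u ∈ J_U S i)
    (l : Idx r e) : Jr S i j u l = if l = J_c i j u then 1 else 0 := by
  rw [J_mem_U] at hu
  rcases hu with ⟨a, ha, rfl⟩ | rfl | ⟨p, rfl⟩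
  · have h1 : (Sum.inl (Sum.inl a) : Idx r e) ∈
        S.image (fun a => (Sum.inl (Sum.inl a) : Idx r e)) := Finset.mem_image.2 ⟨a, ha, rfl⟩
    unfold Jr J_c
    rw [if_neg (by simp), if_pos h1]
    simp
  · unfold Jr J_c
    rw [if_pos rfl]
    simp
  · have h1 : (Sum.inr p : Idx r e) ∉
        S.image (fun a => (Sum.inl (Sum.inl a) : Idx r e)) := by
      intro h
      obtain ⟨a, _, h⟩ := Finset.mem_image.1 h
      simp at h
    have hc : J_c i j (Sum.inr p : Idx r e) = Sum.inr p := if_neg (by simp)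
    rw [hc]
    unfold Jr
    rw [if_neg (by simp), if_neg h1]
    rcases l with l | q
    · rw [if_neg (by simp)]
      rcases l with l | l <;> rfl
    · by_cases h : p = q
      · subst h
        simp [Y0]
      · have h' : ¬ (Sum.inr q : Idx r e) = Sum.inr p := by
          intro h2
          exact h (Sum.inr_injective h2).symm
        rw [if_neg h']
        simp [Y0, h]

theorem prf_J (h1 : StPer) (h2 : StUn) (h3 : StMap) (h4 : StCg) (h5 : StRw) : StJ := by
  intro r e S i j hS
  have hcard : ∀ m : Mr r, ((univ : Finset (Mr r)).erase m).card = 2 ^ r - 1 := by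
    intro m
    rw [Finset.card_erase_of_mem (Finset.mem_univ m), Finset.card_univ, Fintype.card_finset,
      Fintype.card_fin]
  rw [h1 (Idx r e) (Jr S i j)]
  have e1 : pe (Jr (e := e) S i j) univ univ =
      pe (Jr (e := e) S i j) ((Sᶜ.disjSum (univ.erase i)).map Function.Embedding.inl)
        ((Sᶜ.disjSum (univ.erase j)).map Function.Embedding.inl) := by
    have h := h2 (Idx r e) (Idx r e) (Jr S i j) (J_U S i)
      ((Sᶜ.disjSum (univ.erase i)).map Function.Embedding.inl) univ (J_c i j) (J_disj S i)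
      (J_injOn S i j) (fun u _ => Finset.mem_univ _) (fun u hu l => J_row S i j u hu l)
    rw [J_union, J_sdiff] at h
    exact h
  rw [e1, h3]
  have e2 : pe (fun a b => Jr (e := e) S i j (Function.Embedding.inl a) (Function.Embedding.inl b))
      (Sᶜ.disjSum (univ.erase i)) (Sᶜ.disjSum (univ.erase j)) =
      pe (Sum.elim (fun a => Sum.elim (fun _ : Ar r => (0 : ℤ)) (Bm a))
      (fun i : Mr r => Sum.elim (fun b => Cm b i) fun _ : Mr r => 1)) (Sᶜ.disjSum (univ.erase i))
        (Sᶜ.disjSum (univ.erase j)) := by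
    refine h4 _ _ _ _ _ _ ?_
    intro p hp q hq
    rcases p with a | m
    · have ha : a ∉ S := by
        have := Finset.inl_mem_disjSum.1 hp
        simpa using this
      have h1 : (Sum.inl (Sum.inl a) : Idx r e) ∉
          S.image (fun a => (Sum.inl (Sum.inl a) : Idx r e)) := by
        intro h
        obtain ⟨b, hb, h⟩ := Finset.mem_image.1 h
        simp only [Sum.inl.injEq] at h
        exact ha (h ▸ hb)
      have e3 : Jr (e := e) S i j (Sum.inl (Sum.inl a)) (Sum.inl q) =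
          Y0 (e := e) (Sum.inl (Sum.inl a)) (Sum.inl q) := by
        unfold Jr
        rw [if_neg (by simp), if_neg h1]
      rcases q with b | l
      · exact e3
      · exact e3
    · have hm : m ≠ i := by
        have := Finset.inr_mem_disjSum.1 hp
        exact Finset.ne_of_mem_erase this
      have h1 : (Sum.inl (Sum.inr m) : Idx r e) ∉
          S.image (fun a => (Sum.inl (Sum.inl a) : Idx r e)) := by
        intro h
        obtain ⟨b, hb, h⟩ := Finset.mem_image.1 h
        simp at h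
      have e3 : Jr (e := e) S i j (Sum.inl (Sum.inr m)) (Sum.inl q) =
          Y0 (e := e) (Sum.inl (Sum.inr m)) (Sum.inl q) := by
        unfold Jr
        rw [if_neg (by simpa using hm), if_neg h1]
      rcases q with b | l
      · exact e3
      · exact e3
  rw [e2, h5 (Ar r) (Mr r) Bm Cm (univ.erase i) (univ.erase j) Sᶜ Sᶜ
    (by rw [hcard, hcard]; exact Nat.add_comm _ _) (by rw [hcard]; exact hS), hcard]

end Pool.Agent.Work.MP_499dc6_lc.FS
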