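import Pool.Agent.Work.MP_499dc6_lc.FS.Stmts

set_option autoImplicit false

/-!
# Item Kal: Kalorkoti's lemma
-/

open MvPolynomial

namespace Pool.Agent.Work.MP_499dc6_lc.FS

/-- a homomorphism of fields commutes with the evaluation of formulas -/
theorem Kal_ev {F σ E E' : Type} [Field E] [Field E'] (h : E →+* E') (c : F → E) (x : σ → E)
    (Φ : Formula F σ) : h (Φ.ev c x) = Φ.ev (fun a => h (c a)) (fun v => h (x v)) := by
  induction Φ with
  | var v => rfl
  | const a => rfl
  | add a b iha ihb =>
    show h (a.ev c x + b.ev c x) = _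
    rw [map_add, iha, ihb]
    rfl
  | mul a b iha ihb =>
    show h (a.ev c x * b.ev c x) = _
    rw [map_mul, iha, ihb]
    rfl
  | div a b iha ihb =>
    show h (a.ev c x / b.ev c x) = _
    rw [map_div₀, iha, ihb]
    rfl

/-- the homomorphism into the polynomials over the field of rational functions -/
noncomputable def Kal_th (F A N : Type) [Field F] :
    MvPolynomial (A ⊕ N) F →+* MvPolynomial A (FractionRing (MvPolynomial N F)) :=
  (map (algebraMap (MvPolynomial N F) (FractionRing (MvPolynomial N F)))).comp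
    ((sumAlgEquiv F A N : MvPolynomial (A ⊕ N) F ≃ₐ[F] MvPolynomial A (MvPolynomial N F)) :
      MvPolynomial (A ⊕ N) F →+* MvPolynomial A (MvPolynomial N F))

theorem Kal_th_apply (F A N : Type) [Field F] (p : MvPolynomial (A ⊕ N) F) :
    Kal_th F A N p = map (algebraMap (MvPolynomial N F) (FractionRing (MvPolynomial N F)))
      (sumAlgEquiv F A N p) := rfl

theorem Kal_th_inj (F A N : Type) [Field F] : Function.Injective (Kal_th F A N) := by
  intro p q h
  rw [Kal_th_apply, Kal_th_apply] at h
  exact (sumAlgEquiv F A N).injective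
    (map_injective _ (IsFractionRing.injective (MvPolynomial N F) (FractionRing (MvPolynomial N F))) h)

theorem Kal_th_C (F A N : Type) [Field F] (a : F) :
    Kal_th F A N (C a) = C (algebraMap (MvPolynomial N F) (FractionRing (MvPolynomial N F)) (C a)) := by
  rw [Kal_th_apply, sumAlgEquiv_C_inl, map_C]

theorem Kal_th_Xl (F A N : Type) [Field F] (a : A) :
    Kal_th F A N (X (Sum.inl a)) = X a := by
  rw [Kal_th_apply, sumAlgEquiv_X_inl, map_X]

theorem Kal_th_Xr (F A N : Type) [Field F] (v : N) :
    Kal_th F A N (X (Sum.inr v)) =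
      C (algebraMap (MvPolynomial N F) (FractionRing (MvPolynomial N F)) (X v)) := by
  rw [Kal_th_apply, sumAlgEquiv_X_inr, map_C]

theorem prf_Kal (h1 : StKA) (h2 : StKB) (h3 : StKC) : StKal := by
  classical
  intro F A N _ _ _ Φ g hΦ hind
  set L := FractionRing (MvPolynomial N F) with hL
  set E := FractionRing (MvPolynomial A L) with hE
  let al : MvPolynomial N F →+* L := algebraMap (MvPolynomial N F) L
  let ae : MvPolynomial A L →+* E := algebraMap (MvPolynomial A L) E
  let io : L →+* E := ae.comp C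
  let θ : MvPolynomial (A ⊕ N) F →+* E := ae.comp (Kal_th F A N)
  have hθ : Function.Injective θ :=
    (IsFractionRing.injective (MvPolynomial A L) E).comp (Kal_th_inj F A N)
  let Θ : FractionRing (MvPolynomial (A ⊕ N) F) →+* E := IsFractionRing.lift hθ
  have hΘ : ∀ p, Θ (algebraMap (MvPolynomial (A ⊕ N) F) (FractionRing (MvPolynomial (A ⊕ N) F)) p) = θ p :=
    fun p => IsFractionRing.lift_algebraMap hθ p
  let c : F →+* E := θ.comp C
  let x : A ⊕ N → E := fun v => θ (X v)
  have hev : Φ.ev c x = ae (Kal_th F A N g) := by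
    have e1 := congrArg Θ hΦ
    rw [hΘ, Kal_ev] at e1
    simp only [hΘ] at e1
    exact e1
  have hc : ∀ a, c a = io (al (C a)) := fun a => by
    show ae (Kal_th F A N (C a)) = _
    rw [Kal_th_C]
    rfl
  have hxl : ∀ a, x (Sum.inl a) = ae (X a) := fun a => by
    show ae (Kal_th F A N (X (Sum.inl a))) = _
    rw [Kal_th_Xl]
  have hxr : ∀ v, x (Sum.inr v) = io (al (X v)) := fun v => by
    show ae (Kal_th F A N (X (Sum.inr v))) = _
    rw [Kal_th_Xr]
    rfl
  obtain ⟨P, hP1, hP2, hP3⟩ := h1 F (A ⊕ N) E c x (Set.range Sum.inl) io.fieldRange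
    (fun a => ⟨al (C a), (hc a).symm⟩) (by
      rintro (a | v) hv
      · exact absurd ⟨a, rfl⟩ hv
      · exact ⟨al (X v), (hxr v).symm⟩) Φ
  -- pull back
  let P' : Finset L := P.preimage io io.injective.injOn
  have hP'1 : ∀ p ∈ P, ∃ p' ∈ P', io p' = p := fun p hp => by
    obtain ⟨p', hp'⟩ := hP1 p hp
    exact ⟨p', Finset.mem_preimage.2 (hp' ▸ hp), hp'⟩
  have hP'2 : P'.card ≤ P.card := by
    refine Finset.card_le_card_of_injOn io (fun p hp => ?_) io.injective.injOn
    exact Finset.mem_preimage.1 hp
  let E₁ : IntermediateField F L := IntermediateField.adjoin F (P' : Set L)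
  have hal : ∀ a : F, al (C a) ∈ E₁ := fun a => by
    have : al (C a) = algebraMap F L a :=
      (IsScalarTower.algebraMap_apply F (MvPolynomial N F) L a).symm
    rw [this]
    exact E₁.algebraMap_mem a
  have hq : ∀ m, coeff m (Kal_th F A N g) ∈ E₁.toSubfield := by
    refine h2 A L E₁.toSubfield (Kal_th F A N g) ?_
    have h5 : ae (Kal_th F A N g) ∈ Subfield.closure (Set.range c ∪ (P : Set E) ∪ x '' Set.range Sum.inl) := by
      rw [← hev]
      exact hP3
    refine (Subfield.closure_le.2 ?_ : Subfield.closure _ ≤ Subfield.closure _) h5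
    rintro z ((⟨a, rfl⟩ | hz) | ⟨_, ⟨a, rfl⟩, rfl⟩)
    · refine Subfield.subset_closure (Or.inl ⟨al (C a), hal a, ?_⟩)
      exact (hc a).symm
    · obtain ⟨p', hp', hpz⟩ := hP'1 z hz
      refine Subfield.subset_closure (Or.inl ⟨p', ?_, hpz⟩)
      exact IntermediateField.subset_adjoin F (P' : Set L) hp'
    · refine Subfield.subset_closure (Or.inr ⟨a, ?_⟩)
      exact (hxl a).symm
  have hco : ∀ S : Finset A, al (co S g) ∈ E₁ := fun S => by
    have h6 := hq (ind S)
    have h7 : coeff (ind S) (Kal_th F A N g) = al (co S g) := by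
      rw [Kal_th_apply, coeff_map]
      rfl
    rw [h7] at h6
    exact h6
  have hind' : AlgebraicIndependent F fun S : Finset A => al (co S g) := by
    have h8 := hind.map' (f := IsScalarTower.toAlgHom F (MvPolynomial N F) L)
      (IsFractionRing.injective (MvPolynomial N F) L)
    exact h8
  have h9 := h3 F L (Finset A) P' (fun S => al (co S g)) hco hind'
  rw [Fintype.card_finset] at h9
  exact h9.trans (hP'2.trans hP2)

end Pool.Agent.Work.MP_499dc6_lc.FS
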