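import Pool.Agent.Work.MP_499dc6_lc.FS.Stmts

set_option autoImplicit false

/-! # Block [499dc6 FS], item Mg -/

namespace Pool.Agent.Work.MP_499dc6_lc.FS

theorem Mg_list {β : Type} (Q : Finset β) (g : β → ℤ) (F : β → List (β → ℤ) → ℤ)
    (L : List (List (β → ℤ))) :
    (L.map fun hs => ∑ l ∈ Q, g l * F l hs).sum = ∑ l ∈ Q, g l * (L.map (F l)).sum := by
  induction L with
  | nil => simp
  | cons a L ih =>
    simp only [List.map_cons, List.sum_cons, ih, mul_add, Finset.sum_add_distrib]

theorem prf_Mg : StMg := by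
  intro β _ f fs
  induction fs with
  | nil =>
    intro Q
    simp [pr, mg]
  | cons g gs ih =>
    intro Q
    have hex : pr (f :: g :: gs) Q = ∑ l ∈ Q, g l * pr (f :: gs) (Q.erase l) := by
      simp only [pr, Finset.mul_sum]
      rw [Finset.sum_comm' (s' := fun y => Q.erase y) (t' := Q)]
      · refine Finset.sum_congr rfl fun y _ => Finset.sum_congr rfl fun x _ => ?_
        rw [Finset.erase_right_comm]
        ring
      · intro x y
        simp only [Finset.mem_erase]
        constructor
        · rintro ⟨h1, h2, h3⟩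
          exact ⟨⟨h2.symm, h1⟩, h3⟩
        · rintro ⟨⟨h1, h2⟩, h3⟩
          exact ⟨h2, h1.symm, h3⟩
    have hm : ((mg f (g :: gs)).map fun hs => pr hs Q).sum =
        ∑ l ∈ Q, g l * f l * pr gs (Q.erase l) +
          ∑ l ∈ Q, g l * ((mg f gs).map fun hs => pr hs (Q.erase l)).sum := by
      rw [← Mg_list Q g (fun l hs => pr hs (Q.erase l))]
      simp only [mg, List.map_cons, List.sum_cons, List.map_map]
      rfl
    have hg : pr (g :: gs) Q = ∑ l ∈ Q, g l * pr gs (Q.erase l) := rfl
    rw [hex, hm, hg, Finset.mul_sum, ← Finset.sum_add_distrib, ← Finset.sum_sub_distrib]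
    refine Finset.sum_congr rfl fun l hl => ?_
    rw [ih, Finset.sum_erase_eq_sub hl]
    ring

end Pool.Agent.Work.MP_499dc6_lc.FS
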