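import Pool.Agent.Work.MP_499dc6_lc.FS.Stmts

set_option autoImplicit false

/-!
# Block [499dc6 FS], item Sub: coefficients and derivatives
-/

open MvPolynomial Finset

namespace Pool.Agent.Work.MP_499dc6_lc.FS

theorem Sub_inl {A N R : Type} [CommRing R] (a : A) :
    sumAlgEquiv R A N (X (Sum.inl a)) = X a := by
  rw [sumAlgEquiv_X_inl]

theorem Sub_inr {A N R : Type} [CommRing R] (v : N) :
    sumAlgEquiv R A N (X (Sum.inr v)) = C (X v) := by
  rw [sumAlgEquiv_X_inr]

theorem Sub_C {A N R : Type} [CommRing R] (a : R) :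
    sumAlgEquiv R A N (C a) = C (C a) := by
  rw [sumAlgEquiv_C_inl]

theorem Sub_sub {A N R : Type} [CommRing R] (x : N → R) (f : MvPolynomial (A ⊕ N) R) :
    sub x f = map (eval x) (sumAlgEquiv R A N f) := by
  induction f using MvPolynomial.induction_on with
  | C a => rw [Sub_C, map_C, eval_C]; simp [sub]
  | add p q hp hq => rw [map_add, map_add, map_add, hp, hq]
  | mul_X p i hp =>
    rw [map_mul, map_mul, map_mul, hp]
    congr 1
    rcases i with a | v
    · rw [Sub_inl, map_X]; simp [sub]
    · rw [Sub_inr, map_C, eval_X]; simp [sub]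

theorem Sub_mulC {A T : Type} [CommRing T] (m : A →₀ ℕ) (g : MvPolynomial A T) (a : T) :
    coeff m (g * C a) = coeff m g * a := by
  rw [mul_comm, coeff_C_mul, mul_comm]

theorem Sub_coeff {A N R : Type} [CommRing R] (v : N) (f : MvPolynomial (A ⊕ N) R) :
    ∀ m : A →₀ ℕ, coeff m (sumAlgEquiv R A N (pderiv (Sum.inr v) f)) =
      pderiv v (coeff m (sumAlgEquiv R A N f)) := by
  classical
  induction f using MvPolynomial.induction_on with
  | C a =>
    intro m
    rw [Sub_C, pderiv_C, map_zero, coeff_zero, coeff_C]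
    split_ifs
    · rw [pderiv_C]
    · rw [map_zero]
  | add p q hp hq =>
    intro m
    rw [map_add, map_add, map_add, coeff_add, coeff_add, map_add, hp, hq]
  | mul_X p i hp =>
    intro m
    rcases i with a | w
    · rw [pderiv_mul, pderiv_X_of_ne (by simp), mul_zero, add_zero, map_mul, map_mul, Sub_inl,
        coeff_mul_X', coeff_mul_X']
      split_ifs
      · exact hp _
      · rw [map_zero]
    · rw [pderiv_mul, map_add, map_mul, map_mul, map_mul, Sub_inr, Sub_mulC, pderiv_mul,
        coeff_add, Sub_mulC, hp]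
      congr 1
      by_cases h : w = v
      · subst h
        rw [pderiv_X_self, pderiv_X_self, map_one, mul_one, mul_one]
      · rw [pderiv_X_of_ne h, pderiv_X_of_ne (by simpa using h), map_zero, mul_zero, mul_zero,
          coeff_zero]

theorem prf_Sub : StSub := by
  intro A N R _ S f v x
  rw [Sub_sub, coeff_map, Sub_coeff]
  rfl

end Pool.Agent.Work.MP_499dc6_lc.FS
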